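import Pool.Agent.Helper94.BC.Win
import Pool.Agent.Helper94.EN.Sys
import Pool.Agent.Results.MP_8d13b5_lc.AlmostAllCoefficients

set_option autoImplicit false

/-!
# The Skolem Problem at ALL large indices of sequences with almost all real parameters

The coefficients of a recurrence are integer vectors `z` near real vectors which
depend on one integer `t`: `|z_i - F_i(t) (ξ_i)| ≤ G(t) ^ δ`, where the functions `F_i(t)` are convex on an
interval with slopes at least `G(t)`, and `G(t) ≥ t ^ R` for large `t`.  For example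

* `F_i(t) (ξ_i) = ξ_i g_i(t) + c_i(t)` for any real sequences `g_i(t) ≥ G(t)` (such as `2 ^ t`, `t !`,
  `2 ^ (2 ^ t)`, `t ^ R`, in any combination and with any repetitions) and any real sequences `c_i`, for
  almost all real vectors `ξ`,
* `F_i(t) (ξ_i) = ξ_i ^ g_i(t) + c_i(t)` with positive integers `g_i(t)`, `b ^ g_i(t) ≥ G(t)`, for almost all
  `ξ` with `ξ_i > b`.

For almost all `ξ` the following holds for ALL `t ≥ t₀(ξ)` and ALL the vectors `z` in these windows,
without any exception: the Skolem Problem is solved for the recurrences with the coefficients `z` and ALL initial values up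
to `G(t) ^ δ`: there is a zero if and only if one of the initial values is zero; one errorless
algorithm halts on all of them, and a prime `p ≤ (log G(t)) ^ B` is a certificate if the initial values
are nonzero.

In the starting results, and in `MetricSequences`, there is an exceptional set of indices or of
vectors: the data run through boxes, the members of thin or metric sequences with all but
`N ^ (1 - δ)` exceptions up to `N`, or random orbits.

Proof. For a fixed `t` the vectors of the integer parts, as functions of `ξ`, are equidistributed modulo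
all integers `q ≤ G(t) ^ (1/3)` with a power saving (the level sets of a convex function have monotone
lengths, the coordinates are independent).  Families of vectors with arbitrary weights are limits of
finite families, so the sieve of `Pool.Agent.N84.TS` bounds the measure of the set of the `ξ` with a bad
vector in the window by `G(t) ^ (-δ')`; by Borel-Cantelli almost no `ξ` is bad for infinitely many `t`.
The local densities are those of the starting result `AlmostAllCoefficients`.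
-/

namespace Pool.Agent.Results.MP_8d13b5_lc.EveryLargeIndex

open MeasureTheory Filter
open Pool.Agent.H884R2.Sko Pool.Agent.H692R2.USS

/-- `F` is continuous, convex on `[u, v]`, and its slopes there are at least `G`. -/
def Steep (u v G : ℝ) (F : ℝ → ℝ) : Prop :=
  Continuous F ∧ ConvexOn ℝ (Set.Icc u v) F ∧
    ∀ x y, u ≤ x → x ≤ y → y ≤ v → G * (y - x) ≤ F y - F x

/-- For almost all `ξ` and all large `t` the property `P t z` holds for all integer vectors `z` within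
`G(t) ^ δ` of the vector with the coordinates (1) `F_i(t) (ξ_i)` for convex functions with slopes at
least `G(t)`, (2) `ξ_i g_i(t) + c_i(t)` for all real sequences `g_i` with `g_i(t) ≥ G(t)` and all real
sequences `c_i`, (3) `ξ_i ^ g_i(t) + c_i(t)`, `ξ_i > b`, for all sequences `g_i` of natural numbers with
`b ^ g_i(t) ≥ G(t)` and all real sequences `c_i`. -/
def Every {ι : Type} [Fintype ι] (G : ℕ → ℝ) (δ : ℝ) (P : ℕ → (ι → ℤ) → Prop) : Prop :=
  (∀ (u v : ι → ℝ) (F : ι → ℕ → ℝ → ℝ), (∀ i, ∀ᶠ t in atTop, Steep (u i) (v i) (G t) (F i t)) →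
    ∀ᵐ ξ : ι → ℝ, (∀ i, ξ i ∈ Set.Ioc (u i) (v i)) → ∀ᶠ t in atTop, ∀ z : ι → ℤ,
      (∀ i, |(z i : ℝ) - F i t (ξ i)| ≤ (G t) ^ δ) → P t z) ∧
  (∀ g c : ι → ℕ → ℝ, (∀ i, ∀ᶠ t in atTop, G t ≤ g i t) →
    ∀ᵐ ξ : ι → ℝ, ∀ᶠ t in atTop, ∀ z : ι → ℤ,
      (∀ i, |(z i : ℝ) - (ξ i * g i t + c i t)| ≤ (G t) ^ δ) → P t z) ∧
  (∀ (b : ℝ) (g : ι → ℕ → ℕ) (c : ι → ℕ → ℝ), 1 < b → (∀ i, ∀ᶠ t in atTop, G t ≤ b ^ g i t) →
    ∀ᵐ ξ : ι → ℝ, (∀ i, b < ξ i) → ∀ᶠ t in atTop, ∀ z : ι → ℤ,
      (∀ i, |(z i : ℝ) - (ξ i ^ g i t + c i t)| ≤ (G t) ^ δ) → P t z)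

theorem every_of {ι : Type} [Fintype ι] {G : ℕ → ℝ} {δ : ℝ} {P Q : ℕ → (ι → ℤ) → Prop}
    (hQ : ∀ t z, ¬ Q t z → P t z)
    (h : (∀ (u v : ι → ℝ) (F : ι → ℕ → ℝ → ℝ),
        (∀ i, ∀ᶠ t in atTop, Pool.Agent.Helper94.BC.Cvx (u i) (v i) (G t) (F i t)) →
        ∀ᵐ ξ : ι → ℝ, (∀ i, ξ i ∈ Set.Ioc (u i) (v i)) → ∀ᶠ t in atTop, ∀ z : ι → ℤ,
          (∀ i, |(z i : ℝ) - F i t (ξ i)| ≤ (G t) ^ δ) → ¬ Q t z) ∧
      (∀ g c : ι → ℕ → ℝ, (∀ i, ∀ᶠ t in atTop, G t ≤ g i t) →
        ∀ᵐ ξ : ι → ℝ, ∀ᶠ t in atTop, ∀ z : ι → ℤ,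
          (∀ i, |(z i : ℝ) - (ξ i * g i t + c i t)| ≤ (G t) ^ δ) → ¬ Q t z) ∧
      (∀ (b : ℝ) (g : ι → ℕ → ℕ) (c : ι → ℕ → ℝ), 1 < b → (∀ i, ∀ᶠ t in atTop, G t ≤ b ^ g i t) →
        ∀ᵐ ξ : ι → ℝ, (∀ i, b < ξ i) → ∀ᶠ t in atTop, ∀ z : ι → ℤ,
          (∀ i, |(z i : ℝ) - (ξ i ^ g i t + c i t)| ≤ (G t) ^ δ) → ¬ Q t z)) :
    Every G δ P := by
  obtain ⟨h1, h2, h3⟩ := h
  refine ⟨fun u v F hF => ?_, fun g c hg => ?_, fun b g c hb hg => ?_⟩
  · filter_upwards [h1 u v F fun i => by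
      filter_upwards [hF i] with t ht
      exact ⟨ht.1, ht.2.1, ht.2.2⟩] with ξ hξ hξ2
    filter_upwards [hξ hξ2] with t ht z hz
    exact hQ t z (ht z hz)
  · filter_upwards [h2 g c hg] with ξ hξ
    filter_upwards [hξ] with t ht z hz
    exact hQ t z (ht z hz)
  · filter_upwards [h3 b g c hb hg] with ξ hξ hξ2
    filter_upwards [hξ hξ2] with t ht z hz
    exact hQ t z (ht z hz)

theorem result :
    -- one algorithm for all integer linear recurrence sequences, which never errs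
    ∃ A : List (ℕ × ℕ) × List (ℕ × ℕ) →. Bool, Partrec A ∧
      (∀ z v, IsLRS z v → ∀ b ∈ A z, (b = true ↔ ∃ n, v n = 0)) ∧
      -- one total computable function, which reads all linear recurrence sequences and never errs
      ∃ f : ℕ × (List (ℕ × ℕ) × List (ℕ × ℕ)) → Bool, Computable f ∧
        (∀ (y : ℕ) (z : List (ℕ × ℕ) × List (ℕ × ℕ)) (v : ℕ → ℤ), IsLRS z v → f (y, z) = true →
          ∀ n, v n ≠ 0) ∧
        -- all orders, all small initial values
        ∀ d : ℕ, 1 ≤ d → ∃ B δ R : ℝ, 0 < B ∧ 0 < δ ∧ 0 < R ∧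
          ∀ G : ℕ → ℝ, (∀ᶠ t : ℕ in atTop, (t : ℝ) ^ R ≤ G t) → Every G δ fun t (c : Fin d → ℤ) =>
            AlmostAllCoefficients.Easy A f d ((G t) ^ δ) (Real.log (G t) ^ B) c := by
  classical
  obtain ⟨𝒜, h𝒜, h𝒜e⟩ := algo
  obtain ⟨f, hf, hfe⟩ := Pool.Agent.H684R3.Smo.t10
  refine ⟨𝒜, h𝒜, fun z v hv => (h𝒜e z v hv).1, f, hf, fun y z v hv ht n hn => ?_,
    fun d hd => ?_⟩
  · obtain ⟨q, _, _, hq⟩ := (hfe y z v hv).1 ht
    apply hq n
    rw [hn]
    exact dvd_zero _
  · have heasy : ∀ (X Y : ℝ) (c : Fin d → ℤ), Pool.Agent.R851.SK.EasyF d X Y c →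
        AlmostAllCoefficients.Easy 𝒜 f d X Y c := by
      intro X Y c hc a u haX hu
      refine ⟨⟨?_, ?_⟩, fun z hz => ?_, fun ha => ?_⟩
      · rintro ⟨n, hn⟩
        by_contra hcon
        push Not at hcon
        obtain ⟨p, hp, hpY, hpv⟩ := hc a u hcon haX hu
        apply (hpv n).1
        rw [hn]
        exact dvd_zero _
      · rintro ⟨i, hi⟩
        exact ⟨i, by rw [hu.1 i, hi]⟩
      · rw [(h𝒜e z u hz).2]
        by_cases ha : ∃ i, a i = 0
        · obtain ⟨i, hi⟩ := ha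
          exact Or.inl ⟨i, by rw [hu.1 i, hi]⟩
        · push Not at ha
          obtain ⟨p, hp, -, hpv⟩ := hc a u ha haX hu
          exact Or.inr ⟨p, hp, fun n => (hpv n).1⟩
      · obtain ⟨p, hp, hpY, hpv⟩ := hc a u ha haX hu
        refine ⟨⟨p, hp, hpY, hpv⟩, fun z hz => ?_⟩
        rw [hfe _ _ _ hz]
        exact ⟨p, Nat.le_floor hpY, hp, fun n => (hpv n).1⟩
    obtain ⟨A, δ, hA, hδ, H₀, h⟩ := Pool.Agent.N84.TS.rec_sieve d hd
    obtain ⟨δ', R, hδ', hR, hmain⟩ := Pool.Agent.Helper94.BC.everyP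
      (fun X Y (c : Fin d → ℤ) => ¬ Pool.Agent.R851.SK.EasyF d X Y c) (by
        intro X X' Y Y' c hX hY hbad he
        apply hbad
        intro a u ha haX hu
        obtain ⟨p, hp, hpY, hpv⟩ := he a u ha (fun i => (haX i).trans hX) hu
        exact ⟨p, hp, hpY.trans hY, hpv⟩) hA hδ h
    refine ⟨A, δ', R, hA, hδ', hR, fun G hG => every_of
      (Q := fun t z => ¬ Pool.Agent.R851.SK.EasyF d ((G t) ^ δ') (Real.log (G t) ^ A) z)
      (fun t z hz => heasy _ _ _ (not_not.1 hz)) (hmain G hG)⟩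

end Pool.Agent.Results.MP_8d13b5_lc.EveryLargeIndex
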