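import Pool.Agent.Helper94.BC.Win
import Pool.Agent.Helper94.EN.Sys
import Pool.Agent.Results.MP_8d13b5_lc.AllSmallPolynomials

set_option autoImplicit false

/-!
# The Skolem Problem for all small polynomials at ALL large indices of metric sequences

The coefficients and the initial values of recurrence sequences `u_1, ..., u_s` of any orders are the
coordinates of integer vectors `z` near real vectors which depend on one integer `t`: `|z_i - F_i(t) (ξ_i)| ≤ G(t) ^ δ`, where the functions `F_i(t)` are convex on an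
interval with slopes at least `G(t)`, and `G(t) ≥ t ^ R` for large `t`.  For example

* `F_i(t) (ξ_i) = ξ_i g_i(t) + c_i(t)` for any real sequences `g_i(t) ≥ G(t)` (such as `2 ^ t`, `t !`,
  `2 ^ (2 ^ t)`, `t ^ R`, in any combination and with any repetitions) and any real sequences `c_i`, for
  almost all real vectors `ξ`,
* `F_i(t) (ξ_i) = ξ_i ^ g_i(t) + c_i(t)` with positive integers `g_i(t)`, `b ^ g_i(t) ≥ G(t)`, for almost all
  `ξ` with `ξ_i > b`.

For almost all `ξ` the following holds for ALL `t ≥ t₀(ξ)` and ALL the vectors `z` in these windows,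
without any exception: ALL the sequences `v_n = G(c, u_j(n + i))`, for all nonzero polynomials `G` of degree at
most `r` in each variable with integer coefficients up to `G(t) ^ δ`, have no zero, with a certificate
`p ≤ (log G(t)) ^ B` if the coefficients of `G` have no common divisor.

In the starting results, and in `MetricSystems`, there is an exceptional set of indices or of
vectors: the data run through boxes, the members of thin or metric sequences with all but
`N ^ (1 - δ)` exceptions up to `N`, or random orbits.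

Proof. For a fixed `t` the vectors of the integer parts, as functions of `ξ`, are equidistributed modulo
all integers `q ≤ G(t) ^ (1/3)` with a power saving (the level sets of a convex function have monotone
lengths, the coordinates are independent).  Families of vectors with arbitrary weights are limits of
finite families, so the sieve of `Pool.Agent.N84.TS` bounds the measure of the set of the `ξ` with a bad
vector in the window by `G(t) ^ (-δ')`; by Borel-Cantelli almost no `ξ` is bad for infinitely many `t`.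
The local densities are those of the starting result `AllSmallPolynomials`.
-/

namespace Pool.Agent.Results.MP_8d13b5_lc.EveryLargeSystem

open MeasureTheory Filter
open Pool.Agent.H884R2.Sko Pool.Agent.H692R2.USS
open Pool.Agent.Results.MP_8d13b5_lc.AllSmallPolynomials (Idx)

/-- `F` is continuous, convex on `[u, v]`, and its slopes there are at least `G`. -/
def Steep (u v G : ℝ) (F : ℝ → ℝ) : Prop :=
  Continuous F ∧ ConvexOn ℝ (Set.Icc u v) F ∧
    ∀ x y, u ≤ x → x ≤ y → y ≤ v → G * (y - x) ≤ F y - F x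

/-- For almost all `ξ` and all large `t` the property `P t z` holds for all integer vectors `z` within
`G(t) ^ δ` of the vector with the coordinates (1) `F_i(t) (ξ_i)` for convex functions with slopes at
least `G(t)`, (2) `ξ_i g_i(t) + c_i(t)` for all real sequences `g_i` with `g_i(t) ≥ G(t)` and all real
sequences `c_i`, (3) `ξ_i ^ g_i(t) + c_i(t)`, `ξ_i > b`, for all sequences `g_i` of natural numbers with
`b ^ g_i(t) ≥ G(t)` and all real sequences `c_i`. -/
def Every {ι : Type} [Fintype ι] (G : ℕ → ℝ) (δ : ℝ) (P : ℕ → (ι → ℤ) → Prop) : Prop :=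
  (∀ (u v : ι → ℝ) (F : ι → ℕ → ℝ → ℝ), (∀ i, ∀ᶠ t in atTop, Steep (u i) (v i) (G t) (F i t)) →
    ∀ᵐ ξ : ι → ℝ, (∀ i, ξ i ∈ Set.Ioc (u i) (v i)) → ∀ᶠ t in atTop, ∀ z : ι → ℤ,
      (∀ i, |(z i : ℝ) - F i t (ξ i)| ≤ (G t) ^ δ) → P t z) ∧
  (∀ g c : ι → ℕ → ℝ, (∀ i, ∀ᶠ t in atTop, G t ≤ g i t) →
    ∀ᵐ ξ : ι → ℝ, ∀ᶠ t in atTop, ∀ z : ι → ℤ,
      (∀ i, |(z i : ℝ) - (ξ i * g i t + c i t)| ≤ (G t) ^ δ) → P t z) ∧
  (∀ (b : ℝ) (g : ι → ℕ → ℕ) (c : ι → ℕ → ℝ), 1 < b → (∀ i, ∀ᶠ t in atTop, G t ≤ b ^ g i t) →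
    ∀ᵐ ξ : ι → ℝ, (∀ i, b < ξ i) → ∀ᶠ t in atTop, ∀ z : ι → ℤ,
      (∀ i, |(z i : ℝ) - (ξ i ^ g i t + c i t)| ≤ (G t) ^ δ) → P t z)

theorem every_of {ι : Type} [Fintype ι] {G : ℕ → ℝ} {δ : ℝ} {P Q : ℕ → (ι → ℤ) → Prop}
    (hQ : ∀ t z, ¬ Q t z → P t z)
    (h : (∀ (u v : ι → ℝ) (F : ι → ℕ → ℝ → ℝ),
        (∀ i, ∀ᶠ t in atTop, Pool.Agent.Helper94.BC.Cvx (u i) (v i) (G t) (F i t)) →
        ∀ᵐ ξ : ι → ℝ, (∀ i, ξ i ∈ Set.Ioc (u i) (v i)) → ∀ᶠ t in atTop, ∀ z : ι → ℤ,
          (∀ i, |(z i : ℝ) - F i t (ξ i)| ≤ (G t) ^ δ) → ¬ Q t z) ∧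
      (∀ g c : ι → ℕ → ℝ, (∀ i, ∀ᶠ t in atTop, G t ≤ g i t) →
        ∀ᵐ ξ : ι → ℝ, ∀ᶠ t in atTop, ∀ z : ι → ℤ,
          (∀ i, |(z i : ℝ) - (ξ i * g i t + c i t)| ≤ (G t) ^ δ) → ¬ Q t z) ∧
      (∀ (b : ℝ) (g : ι → ℕ → ℕ) (c : ι → ℕ → ℝ), 1 < b → (∀ i, ∀ᶠ t in atTop, G t ≤ b ^ g i t) →
        ∀ᵐ ξ : ι → ℝ, (∀ i, b < ξ i) → ∀ᶠ t in atTop, ∀ z : ι → ℤ,
          (∀ i, |(z i : ℝ) - (ξ i ^ g i t + c i t)| ≤ (G t) ^ δ) → ¬ Q t z)) :
    Every G δ P := by
  obtain ⟨h1, h2, h3⟩ := h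
  refine ⟨fun u v F hF => ?_, fun g c hg => ?_, fun b g c hb hg => ?_⟩
  · filter_upwards [h1 u v F fun i => by
      filter_upwards [hF i] with t ht
      exact ⟨ht.1, ht.2.1, ht.2.2⟩] with ξ hξ hξ2
    filter_upwards [hξ hξ2] with t ht z hz
    exact hQ t z (ht z hz)
  · filter_upwards [h2 g c hg] with ξ hξ
    filter_upwards [hξ] with t ht z hz
    exact hQ t z (ht z hz)
  · filter_upwards [h3 b g c hb hg] with ξ hξ hξ2
    filter_upwards [hξ hξ2] with t ht z hz
    exact hQ t z (ht z hz)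

theorem result :
    -- one total computable function, which reads all linear recurrence sequences and never errs
    ∃ f : ℕ × (List (ℕ × ℕ) × List (ℕ × ℕ)) → Bool, Computable f ∧
      (∀ (y : ℕ) (z : List (ℕ × ℕ) × List (ℕ × ℕ)) (v : ℕ → ℤ), IsLRS z v → f (y, z) = true →
        ∀ n, v n ≠ 0) ∧
      -- all systems of recurrences of any orders, all small polynomials
      ∀ (s r : ℕ) (d : Fin s → ℕ), ∃ B δ R : ℝ, 0 < B ∧ 0 < δ ∧ 0 < R ∧
        ∀ G : ℕ → ℝ, (∀ᶠ t : ℕ in atTop, (t : ℝ) ^ R ≤ G t) →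
          Every G δ fun t (x : Idx d ⊕ Idx d → ℤ) =>
            AllSmallPolynomials.Easy f d r ((G t) ^ δ) (Real.log (G t) ^ B) x := by
  classical
  obtain ⟨f, hf, hfe⟩ := Pool.Agent.H684R3.Smo.t10
  refine ⟨f, hf, fun y z v hv ht n hn => ?_, fun s r d => ?_⟩
  · obtain ⟨q, _, _, hq⟩ := (hfe y z v hv).1 ht
    apply hq n
    rw [hn]
    exact dvd_zero _
  · have heasy : ∀ (X Y : ℝ) (x : Idx d ⊕ Idx d → ℤ),
        Pool.Agent.TH838.SK.Easy d r X Y x → AllSmallPolynomials.Easy f d r X Y x := by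
      intro X Y x hx u hu w hw hwX v hv
      obtain ⟨h2, h3⟩ := hx u hu w hw hwX
      have hv' : v = Pool.Agent.TH838.SK.val w (fun q => x (Sum.inl q)) u := by
        funext n
        exact hv n
      rw [hv']
      refine ⟨h2, fun hprim => ⟨h3 hprim, fun z hz => ?_⟩⟩
      obtain ⟨p, hp, hpY, hpv⟩ := h3 hprim
      rw [hfe _ _ _ hz]
      exact ⟨p, Nat.le_floor hpY, hp, fun n => (hpv n).1⟩
    obtain ⟨A, δ, hA, hδ, H₀, h⟩ := Pool.Agent.Helper94.EN.sys_sieve s r d
    obtain ⟨δ', R, hδ', hR, hmain⟩ := Pool.Agent.Helper94.BC.everyP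
      (fun X Y (v : Idx d ⊕ Idx d → ℤ) => ¬ Pool.Agent.TH838.SK.Easy d r X Y v) (by
        intro X X' Y Y' v hX hY hbad he
        apply hbad
        intro u hu w hw0 hwX
        obtain ⟨h1, h2⟩ := he u hu w hw0 (fun e => (hwX e).trans hX)
        refine ⟨h1, fun h3 => ?_⟩
        obtain ⟨p, hp, hpY, hpv⟩ := h2 h3
        exact ⟨p, hp, hpY.trans hY, hpv⟩) hA hδ h
    refine ⟨A, δ', R, hA, hδ', hR, fun G hG => every_of
      (Q := fun t z => ¬ Pool.Agent.TH838.SK.Easy d r ((G t) ^ δ') (Real.log (G t) ^ A) z)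
      (fun t z hz => heasy _ _ _ (not_not.1 hz)) (hmain G hG)⟩

end Pool.Agent.Results.MP_8d13b5_lc.EveryLargeSystem
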