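import Pool.Agent.Helper94.EN.Three
import Pool.Agent.Helper94.EN.Sys
import Pool.Agent.Results.MP_8d13b5_lc.AlmostAllCoefficients

set_option autoImplicit false

/-!
# The Skolem Problem for almost all real parameters along sequences of any growth

The coefficients of a recurrence are the integer parts `⌊x_i(t)⌋` of real numbers
which depend on one integer `t`, where `t` runs through any set `D` of natural numbers with at least
`N ^ (1 - ε)` members in `(N, 2 N]`, for large `N` and every `ε > 0` (all integers, the primes, the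
sums of two squares, ...). For example

* `x_i(t) = ξ_i g_i(t) + c_i(t)` for any real sequences `g_i` with `g_i(t + 1) - g_i(t) ≥ t ^ (ρ - 1)`
  (for instance `t`, `√t`, `t ^ 2 + t`, `2 ^ t`, `t !`, the `t`-th prime) and any real sequences
  `c_i`, for almost all real vectors `ξ`,
* `x_i(t) = ξ_i ^ g_i(t) + c_i(t)` with strictly increasing integers `g_i(t)`, for almost all `ξ` with
  `ξ_i > 1`,

and in general almost all members of families of twice continuously differentiable functions with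
separated derivatives (`Spread`). For all but the proportion `N ^ (-δ)` of the members `t` of `D` in
`(N, 2 N]`:

the Skolem Problem is solved for the recurrences with the coefficients `⌊x_i(t)⌋` and ALL initial
values up to `N ^ δ`: there is a zero if and only if one of the initial values is zero; one
errorless algorithm halts on all of them, and a prime `p ≤ (log N) ^ B`, `B` depending only on the
order, is a certificate if the initial values are nonzero.

In the starting results the coefficients run through boxes, or they are the values of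
generalised polynomials with distinct exponents which are not integers (`ThinCoefficients`), or they
are given by random orbits. Here the growth is arbitrary (`t` and `t ^ 2`, or `2 ^ t` and `t !`,
together).

Proof. For almost all parameters the vectors of the integer parts are equidistributed modulo all
integers `q ≤ N ^ κ` with a power saving, by a second moment over the parameters
(`Pool.Agent.N54.ME`, here over the sets `D`); the sieve of `Pool.Agent.N84.TS` along such sequences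
with a union bound over the initial values; the local densities are those of the starting result
`AlmostAllCoefficients`.
-/

namespace Pool.Agent.Results.MP_8d13b5_lc.MetricSequences

open MeasureTheory Filter
open Pool.Agent.H884R2.Sko Pool.Agent.H692R2.USS

/-- `D` has at least `N ^ (1 - ε)` members in `(N, 2 N]` for every `ε > 0` and all large `N`. -/
def Many (D : Set ℕ) : Prop :=
  ∀ ε : ℝ, 0 < ε → ∃ N₀ : ℕ, ∀ N : ℕ, N₀ ≤ N →
    (N : ℝ) ^ (1 - ε) ≤ ({t : ℕ | N < t ∧ t ≤ 2 * N ∧ t ∈ D}.ncard : ℝ)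

/-- The derivatives of the consecutive functions `F t` are separated on `[u, v]` and their second
derivatives increase. -/
def Spread (ρ u v : ℝ) (F : ℕ → ℝ → ℝ) : Prop :=
  (∀ t, ContDiff ℝ 2 (F t)) ∧ ∃ t₀ : ℕ, ∀ t, t₀ ≤ t → ∀ x ∈ Set.Icc u v,
    (t : ℝ) ^ (ρ - 1) ≤ deriv (F (t + 1)) x - deriv (F t) x ∧
      deriv (deriv (F t)) x ≤ deriv (deriv (F (t + 1))) x

/-- The property `B` of sequences of integer vectors holds for almost all members of the following
families: (1) the integer parts of `F_i(t) (ξ_i)` for all functions with separated derivatives, (2)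
the integer parts of `ξ_i g_i(t) + c_i(t)` for all real sequences `g_i` with
`g_i(t + 1) - g_i(t) ≥ t ^ (ρ - 1)` for large `t` and all real sequences `c_i`, (3) the integer parts
of `ξ_i ^ g_i(t) + c_i(t)`, `ξ_i > 1`, for all strictly increasing sequences `g_i` of natural numbers
and all real sequences `c_i`. -/
def Metric {ι : Type} [Fintype ι] (ρ : ℝ) (B : (ℕ → ι → ℤ) → Prop) : Prop :=
  (∀ (u v : ι → ℝ) (F : ι → ℕ → ℝ → ℝ), (∀ i, Spread ρ (u i) (v i) (F i)) →
    ∀ᵐ ξ : ι → ℝ, (∀ i, ξ i ∈ Set.Ioc (u i) (v i)) → B (fun t i => ⌊F i t (ξ i)⌋)) ∧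
  (∀ g c : ι → ℕ → ℝ, (∀ i, ∀ᶠ t : ℕ in atTop, (t : ℝ) ^ (ρ - 1) ≤ g i (t + 1) - g i t) →
    ∀ᵐ ξ : ι → ℝ, B (fun t i => ⌊ξ i * g i t + c i t⌋)) ∧
  (∀ (g : ι → ℕ → ℕ) (c : ι → ℕ → ℝ), (∀ i, StrictMono (g i)) →
    ∀ᵐ ξ : ι → ℝ, (∀ i, 1 < ξ i) → B (fun t i => ⌊ξ i ^ g i t + c i t⌋))

/-- For all large `N` at most the proportion `N ^ (-δ)` of the members `t` of `D` in `(N, 2 N]` do not
have the property `Good N (x t)`. -/
def AlmostAll {ι : Type} (D : Set ℕ) (δ : ℝ) (Good : ℕ → (ι → ℤ) → Prop) (x : ℕ → ι → ℤ) : Prop :=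
  ∃ N₀ : ℕ, ∀ N : ℕ, N₀ ≤ N →
    ({t : ℕ | N < t ∧ t ≤ 2 * N ∧ t ∈ D ∧ ¬ Good N (x t)}.ncard : ℝ) ≤
      (N : ℝ) ^ (-δ) * {t : ℕ | N < t ∧ t ≤ 2 * N ∧ t ∈ D}.ncard

lemma blk_eq (D : Set ℕ) (N : ℕ) :
    {t : ℕ | N < t ∧ t ≤ 2 * N ∧ t ∈ D} = (Pool.Agent.Helper94.EN.blk D N : Set ℕ) := by
  ext t
  unfold Pool.Agent.Helper94.EN.blk
  simp only [Set.mem_ofPred_eq, Finset.coe_filter, Finset.mem_Ioc]
  tauto

lemma many_iff {D : Set ℕ} (h : Many D) : Pool.Agent.Helper94.EN.Many D := by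
  intro ε hε
  obtain ⟨N₀, hN₀⟩ := h ε hε
  refine ⟨N₀, fun N hN => ?_⟩
  have := hN₀ N hN
  rw [blk_eq, Set.ncard_coe_finset] at this
  exact this

theorem metric {ι : Type} [Fintype ι] [DecidableEq ι] [Nonempty ι] {D : Set ℕ} (hD : Many D)
    {ρ : ℝ} (hρ : 0 < ρ) (hρ1 : ρ ≤ 1) (B : (ℕ → ι → ℤ) → Prop)
    (hB : ∀ x : ℕ → ι → ℤ, Pool.Agent.Helper94.EN.WD D x
      (Pool.Agent.N54.ME.kap ρ (Fintype.card ι)) → B x) : Metric ρ B :=
  Pool.Agent.Helper94.EN.threeD (many_iff hD) hρ hρ1 B hB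

open Classical in
lemma almostAll_of {ι : Type} {D : Set ℕ} {δ : ℝ} {Good : ℕ → (ι → ℤ) → Prop} {x : ℕ → ι → ℤ}
    (Good' : ℕ → (ι → ℤ) → Prop) {N₀ : ℕ} (hb : ∀ N v, Good' N v → Good N v)
    (h : ∀ N : ℕ, N₀ ≤ N → (((Pool.Agent.Helper94.EN.blk D N).filter fun t => ¬ Good' N (x t)).card : ℝ) ≤
      (N : ℝ) ^ (-δ) * (Pool.Agent.Helper94.EN.blk D N).card) : AlmostAll D δ Good x := by
  refine ⟨N₀, fun N hN => ?_⟩
  rw [blk_eq, Set.ncard_coe_finset]
  refine le_trans (Nat.cast_le.2 ?_) (h N hN)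
  have h1 : {t : ℕ | N < t ∧ t ≤ 2 * N ∧ t ∈ D ∧ ¬ Good N (x t)} ⊆
      (((Pool.Agent.Helper94.EN.blk D N).filter fun t => ¬ Good' N (x t) : Finset ℕ) : Set ℕ) := by
    rintro t ⟨h1, h2, h3, h4⟩
    rw [Finset.mem_coe, Finset.mem_filter]
    refine ⟨?_, fun h5 => h4 (hb N _ h5)⟩
    unfold Pool.Agent.Helper94.EN.blk
    rw [Finset.mem_filter, Finset.mem_Ioc]
    exact ⟨⟨h1, h2⟩, h3⟩
  have h2 := Set.ncard_le_ncard h1 (Finset.finite_toSet _)
  rwa [Set.ncard_coe_finset] at h2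

theorem result :
    -- one algorithm for all integer linear recurrence sequences, which never errs
    ∃ A : List (ℕ × ℕ) × List (ℕ × ℕ) →. Bool, Partrec A ∧
      (∀ z v, IsLRS z v → ∀ b ∈ A z, (b = true ↔ ∃ n, v n = 0)) ∧
      -- one total computable function, which reads all linear recurrence sequences and never errs
      ∃ f : ℕ × (List (ℕ × ℕ) × List (ℕ × ℕ)) → Bool, Computable f ∧
        (∀ (y : ℕ) (z : List (ℕ × ℕ) × List (ℕ × ℕ)) (v : ℕ → ℤ), IsLRS z v → f (y, z) = true →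
          ∀ n, v n ≠ 0) ∧
        -- all orders, all small initial values
        ∀ d : ℕ, 1 ≤ d → ∃ B : ℝ, 0 < B ∧ ∀ ρ : ℝ, 0 < ρ → ρ ≤ 1 → ∃ δ : ℝ, 0 < δ ∧
          ∀ D : Set ℕ, Many D → Metric ρ (AlmostAll D δ fun N (c : Fin d → ℤ) =>
            AlmostAllCoefficients.Easy A f d ((N : ℝ) ^ δ) (Real.log N ^ B) c) := by
  classical
  obtain ⟨𝒜, h𝒜, h𝒜e⟩ := algo
  obtain ⟨f, hf, hfe⟩ := Pool.Agent.H684R3.Smo.t10
  refine ⟨𝒜, h𝒜, fun z v hv => (h𝒜e z v hv).1, f, hf, fun y z v hv ht n hn => ?_,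
    fun d hd => ?_⟩
  · obtain ⟨q, _, _, hq⟩ := (hfe y z v hv).1 ht
    apply hq n
    rw [hn]
    exact dvd_zero _
  · have heasy : ∀ (X Y : ℝ) (c : Fin d → ℤ), Pool.Agent.R851.SK.EasyF d X Y c →
        AlmostAllCoefficients.Easy 𝒜 f d X Y c := by
      intro X Y c hc a u haX hu
      refine ⟨⟨?_, ?_⟩, fun z hz => ?_, fun ha => ?_⟩
      · rintro ⟨n, hn⟩
        by_contra hcon
        push Not at hcon
        obtain ⟨p, hp, hpY, hpv⟩ := hc a u hcon haX hu
        apply (hpv n).1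
        rw [hn]
        exact dvd_zero _
      · rintro ⟨i, hi⟩
        exact ⟨i, by rw [hu.1 i, hi]⟩
      · rw [(h𝒜e z u hz).2]
        by_cases ha : ∃ i, a i = 0
        · obtain ⟨i, hi⟩ := ha
          exact Or.inl ⟨i, by rw [hu.1 i, hi]⟩
        · push Not at ha
          obtain ⟨p, hp, -, hpv⟩ := hc a u ha haX hu
          exact Or.inr ⟨p, hp, fun n => (hpv n).1⟩
      · obtain ⟨p, hp, hpY, hpv⟩ := hc a u ha haX hu
        refine ⟨⟨p, hp, hpY, hpv⟩, fun z hz => ?_⟩
        rw [hfe _ _ _ hz]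
        exact ⟨p, Nat.le_floor hpY, hp, fun n => (hpv n).1⟩
    obtain ⟨B, hB, hmain⟩ := Pool.Agent.N84.TS.rec_main d hd
    have : Nonempty (Fin d) := ⟨⟨0, hd⟩⟩
    refine ⟨B, hB, fun ρ hρ hρ1 => ?_⟩
    obtain ⟨δ, hδ, k⟩ := hmain (Pool.Agent.N54.ME.kap ρ (Fintype.card (Fin d)))
      (Pool.Agent.N54.ME.kap_pos hρ _)
    refine ⟨δ, hδ, fun D hD => metric hD hρ hρ1 _ fun x hx => ?_⟩
    obtain ⟨N₁, hN₁⟩ := k (Pool.Agent.Helper94.EN.blk D) x hx
    exact almostAll_of (fun N v => Pool.Agent.R851.SK.EasyF d ((N : ℝ) ^ δ) (Real.log N ^ B) v)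
      (fun N v hE => heasy _ _ _ hE) hN₁

end Pool.Agent.Results.MP_8d13b5_lc.MetricSequences
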