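import Pool.Agent.Helper94.EN.Three
import Pool.Agent.Helper94.EN.Sys
import Pool.Agent.Results.MP_8d13b5_lc.AllSmallPolynomials

set_option autoImplicit false

/-!
# The Skolem Problem for all small polynomials in recurrence sequences with metric data

The coefficients and the initial values of recurrence sequences `u_1, ..., u_s` of any orders are the
integer parts `⌊x_i(t)⌋` of real numbers which depend on one integer `t`, where `t` runs through any set `D` of natural numbers with at least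
`N ^ (1 - ε)` members in `(N, 2 N]`, for large `N` and every `ε > 0` (all integers, the primes, the
sums of two squares, ...). For example

* `x_i(t) = ξ_i g_i(t) + c_i(t)` for any real sequences `g_i` with `g_i(t + 1) - g_i(t) ≥ t ^ (ρ - 1)`
  (for instance `t`, `√t`, `t ^ 2 + t`, `2 ^ t`, `t !`, the `t`-th prime) and any real sequences
  `c_i`, for almost all real vectors `ξ`,
* `x_i(t) = ξ_i ^ g_i(t) + c_i(t)` with strictly increasing integers `g_i(t)`, for almost all `ξ` with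
  `ξ_i > 1`,

and in general almost all members of families of twice continuously differentiable functions with
separated derivatives (`Spread`). For all but the proportion `N ^ (-δ)` of the members `t` of `D` in
`(N, 2 N]`:

ALL the sequences `v_n = G(c, u_j(n + i))`, for all nonzero polynomials `G` of degree at most `r` in each
variable with integer coefficients up to `N ^ δ`, have no zero, with a certificate `p ≤ (log N) ^ B` if the
coefficients of `G` have no common divisor.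

In the starting results the data run through boxes. Here they are thin sequences of arbitrary growth
(`t` and `t ^ 2`, or `2 ^ t` and `t !`, together).

Proof. For almost all parameters the vectors of the integer parts are equidistributed modulo all
integers `q ≤ N ^ κ` with a power saving, by a second moment over the parameters
(`Pool.Agent.N54.ME`, here over the sets `D`); the sieve of `Pool.Agent.N84.TS` along such sequences
with a union bound over the primitive polynomials `G`; the local densities are those of the starting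
result `AllSmallPolynomials`.
-/

namespace Pool.Agent.Results.MP_8d13b5_lc.MetricSystems

open MeasureTheory Filter
open Pool.Agent.H884R2.Sko Pool.Agent.H692R2.USS
open Pool.Agent.Results.MP_8d13b5_lc.AllSmallPolynomials (Idx)

/-- `D` has at least `N ^ (1 - ε)` members in `(N, 2 N]` for every `ε > 0` and all large `N`. -/
def Many (D : Set ℕ) : Prop :=
  ∀ ε : ℝ, 0 < ε → ∃ N₀ : ℕ, ∀ N : ℕ, N₀ ≤ N →
    (N : ℝ) ^ (1 - ε) ≤ ({t : ℕ | N < t ∧ t ≤ 2 * N ∧ t ∈ D}.ncard : ℝ)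

/-- The derivatives of the consecutive functions `F t` are separated on `[u, v]` and their second
derivatives increase. -/
def Spread (ρ u v : ℝ) (F : ℕ → ℝ → ℝ) : Prop :=
  (∀ t, ContDiff ℝ 2 (F t)) ∧ ∃ t₀ : ℕ, ∀ t, t₀ ≤ t → ∀ x ∈ Set.Icc u v,
    (t : ℝ) ^ (ρ - 1) ≤ deriv (F (t + 1)) x - deriv (F t) x ∧
      deriv (deriv (F t)) x ≤ deriv (deriv (F (t + 1))) x

/-- The property `B` of sequences of integer vectors holds for almost all members of the following
families: (1) the integer parts of `F_i(t) (ξ_i)` for all functions with separated derivatives, (2)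
the integer parts of `ξ_i g_i(t) + c_i(t)` for all real sequences `g_i` with
`g_i(t + 1) - g_i(t) ≥ t ^ (ρ - 1)` for large `t` and all real sequences `c_i`, (3) the integer parts
of `ξ_i ^ g_i(t) + c_i(t)`, `ξ_i > 1`, for all strictly increasing sequences `g_i` of natural numbers
and all real sequences `c_i`. -/
def Metric {ι : Type} [Fintype ι] (ρ : ℝ) (B : (ℕ → ι → ℤ) → Prop) : Prop :=
  (∀ (u v : ι → ℝ) (F : ι → ℕ → ℝ → ℝ), (∀ i, Spread ρ (u i) (v i) (F i)) →
    ∀ᵐ ξ : ι → ℝ, (∀ i, ξ i ∈ Set.Ioc (u i) (v i)) → B (fun t i => ⌊F i t (ξ i)⌋)) ∧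
  (∀ g c : ι → ℕ → ℝ, (∀ i, ∀ᶠ t : ℕ in atTop, (t : ℝ) ^ (ρ - 1) ≤ g i (t + 1) - g i t) →
    ∀ᵐ ξ : ι → ℝ, B (fun t i => ⌊ξ i * g i t + c i t⌋)) ∧
  (∀ (g : ι → ℕ → ℕ) (c : ι → ℕ → ℝ), (∀ i, StrictMono (g i)) →
    ∀ᵐ ξ : ι → ℝ, (∀ i, 1 < ξ i) → B (fun t i => ⌊ξ i ^ g i t + c i t⌋))

/-- For all large `N` at most the proportion `N ^ (-δ)` of the members `t` of `D` in `(N, 2 N]` do not
have the property `Good N (x t)`. -/
def AlmostAll {ι : Type} (D : Set ℕ) (δ : ℝ) (Good : ℕ → (ι → ℤ) → Prop) (x : ℕ → ι → ℤ) : Prop :=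
  ∃ N₀ : ℕ, ∀ N : ℕ, N₀ ≤ N →
    ({t : ℕ | N < t ∧ t ≤ 2 * N ∧ t ∈ D ∧ ¬ Good N (x t)}.ncard : ℝ) ≤
      (N : ℝ) ^ (-δ) * {t : ℕ | N < t ∧ t ≤ 2 * N ∧ t ∈ D}.ncard

lemma blk_eq (D : Set ℕ) (N : ℕ) :
    {t : ℕ | N < t ∧ t ≤ 2 * N ∧ t ∈ D} = (Pool.Agent.Helper94.EN.blk D N : Set ℕ) := by
  ext t
  unfold Pool.Agent.Helper94.EN.blk
  simp only [Set.mem_ofPred_eq, Finset.coe_filter, Finset.mem_Ioc]
  tauto

lemma many_iff {D : Set ℕ} (h : Many D) : Pool.Agent.Helper94.EN.Many D := by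
  intro ε hε
  obtain ⟨N₀, hN₀⟩ := h ε hε
  refine ⟨N₀, fun N hN => ?_⟩
  have := hN₀ N hN
  rw [blk_eq, Set.ncard_coe_finset] at this
  exact this

theorem metric {ι : Type} [Fintype ι] [DecidableEq ι] [Nonempty ι] {D : Set ℕ} (hD : Many D)
    {ρ : ℝ} (hρ : 0 < ρ) (hρ1 : ρ ≤ 1) (B : (ℕ → ι → ℤ) → Prop)
    (hB : ∀ x : ℕ → ι → ℤ, Pool.Agent.Helper94.EN.WD D x
      (Pool.Agent.N54.ME.kap ρ (Fintype.card ι)) → B x) : Metric ρ B :=
  Pool.Agent.Helper94.EN.threeD (many_iff hD) hρ hρ1 B hB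

open Classical in
lemma almostAll_of {ι : Type} {D : Set ℕ} {δ : ℝ} {Good : ℕ → (ι → ℤ) → Prop} {x : ℕ → ι → ℤ}
    (Good' : ℕ → (ι → ℤ) → Prop) {N₀ : ℕ} (hb : ∀ N v, Good' N v → Good N v)
    (h : ∀ N : ℕ, N₀ ≤ N → (((Pool.Agent.Helper94.EN.blk D N).filter fun t => ¬ Good' N (x t)).card : ℝ) ≤
      (N : ℝ) ^ (-δ) * (Pool.Agent.Helper94.EN.blk D N).card) : AlmostAll D δ Good x := by
  refine ⟨N₀, fun N hN => ?_⟩
  rw [blk_eq, Set.ncard_coe_finset]
  refine le_trans (Nat.cast_le.2 ?_) (h N hN)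
  have h1 : {t : ℕ | N < t ∧ t ≤ 2 * N ∧ t ∈ D ∧ ¬ Good N (x t)} ⊆
      (((Pool.Agent.Helper94.EN.blk D N).filter fun t => ¬ Good' N (x t) : Finset ℕ) : Set ℕ) := by
    rintro t ⟨h1, h2, h3, h4⟩
    rw [Finset.mem_coe, Finset.mem_filter]
    refine ⟨?_, fun h5 => h4 (hb N _ h5)⟩
    unfold Pool.Agent.Helper94.EN.blk
    rw [Finset.mem_filter, Finset.mem_Ioc]
    exact ⟨⟨h1, h2⟩, h3⟩
  have h2 := Set.ncard_le_ncard h1 (Finset.finite_toSet _)
  rwa [Set.ncard_coe_finset] at h2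

theorem result :
    -- one total computable function, which reads all linear recurrence sequences and never errs
    ∃ f : ℕ × (List (ℕ × ℕ) × List (ℕ × ℕ)) → Bool, Computable f ∧
      (∀ (y : ℕ) (z : List (ℕ × ℕ) × List (ℕ × ℕ)) (v : ℕ → ℤ), IsLRS z v → f (y, z) = true →
        ∀ n, v n ≠ 0) ∧
      -- all systems of recurrences of any orders, all small polynomials
      ∀ (s r : ℕ) (d : Fin s → ℕ), (∃ j, d j ≠ 0) → ∃ B : ℝ, 0 < B ∧
        ∀ ρ : ℝ, 0 < ρ → ρ ≤ 1 → ∃ δ : ℝ, 0 < δ ∧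
        ∀ D : Set ℕ, Many D → Metric ρ (AlmostAll D δ fun N (x : Idx d ⊕ Idx d → ℤ) =>
          AllSmallPolynomials.Easy f d r ((N : ℝ) ^ δ) (Real.log N ^ B) x) := by
  classical
  obtain ⟨f, hf, hfe⟩ := Pool.Agent.H684R3.Smo.t10
  refine ⟨f, hf, fun y z v hv ht n hn => ?_, fun s r d hd => ?_⟩
  · obtain ⟨q, _, _, hq⟩ := (hfe y z v hv).1 ht
    apply hq n
    rw [hn]
    exact dvd_zero _
  · have heasy : ∀ (X Y : ℝ) (x : Idx d ⊕ Idx d → ℤ),
        Pool.Agent.TH838.SK.Easy d r X Y x → AllSmallPolynomials.Easy f d r X Y x := by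
      intro X Y x hx u hu w hw hwX v hv
      obtain ⟨h2, h3⟩ := hx u hu w hw hwX
      have hv' : v = Pool.Agent.TH838.SK.val w (fun q => x (Sum.inl q)) u := by
        funext n
        exact hv n
      rw [hv']
      refine ⟨h2, fun hprim => ⟨h3 hprim, fun z hz => ?_⟩⟩
      obtain ⟨p, hp, hpY, hpv⟩ := h3 hprim
      rw [hfe _ _ _ hz]
      exact ⟨p, Nat.le_floor hpY, hp, fun n => (hpv n).1⟩
    obtain ⟨B, hB, hmain⟩ := Pool.Agent.Helper94.EN.sys_main s r d
    have : Nonempty (Idx d ⊕ Idx d) := by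
      obtain ⟨j, hj⟩ := hd
      exact ⟨Sum.inl ⟨j, ⟨0, Nat.pos_of_ne_zero hj⟩⟩⟩
    refine ⟨B, hB, fun ρ hρ hρ1 => ?_⟩
    obtain ⟨δ, hδ, k⟩ := hmain (Pool.Agent.N54.ME.kap ρ (Fintype.card (Idx d ⊕ Idx d)))
      (Pool.Agent.N54.ME.kap_pos hρ _)
    refine ⟨δ, hδ, fun D hD => metric hD hρ hρ1 _ fun x hx => ?_⟩
    obtain ⟨N₁, hN₁⟩ := k (Pool.Agent.Helper94.EN.blk D) x hx
    exact almostAll_of
      (fun N v => Pool.Agent.TH838.SK.Easy d r ((N : ℝ) ^ δ) (Real.log N ^ B) v)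
      (fun N v hE => heasy _ _ _ hE) hN₁

end Pool.Agent.Results.MP_8d13b5_lc.MetricSystems
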